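import Pool.Agent.helper74.MQ.Spec
import Pool.Agent.helper30.MP.TR

/-!
# Project mq: module SHF (shift of the base point)
-/

set_option autoImplicit false

open Complex Metric Set Filter Topology MeasureTheory MPS

noncomputable section

namespace MQ

theorem SHF_isStrip (k : ℕ) [NeZero k] (b g : ZMod k → ℂ) (s : ZMod k) (ψ ψ' : ℂ → ℂ) (S : ℂ)
    (y₁ y₂ : ℝ) (χ : ℂ → ℂ) :
    IsStrip (fun j => b (s + j)) (fun j => g (s + j)) ψ ψ' S y₁ y₂ χ ↔ IsStrip b g ψ ψ' S y₁ y₂ χ := by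
  constructor
  · intro h
    exact ⟨(TR_nat k b g s χ _).1 h.nat, h.left, h.right⟩
  · intro h
    exact ⟨(TR_nat k b g s χ _).2 h.nat, h.left, h.right⟩

theorem SHF : SHF_stmt := by
  intro n k _ c b g ψ s
  refine ⟨?_, TR_BB k b g s, ?_, TR_nat k b g s, ?_, ?_, ?_, ?_⟩
  · intro h
    refine ⟨h.hk, ?_, ?_, ?_⟩
    · intro j₁ j₂ hj
      exact add_left_cancel (h.inj hj)
    · have : ∑ j, g (s + j) = ∑ j, g j := Equiv.sum_comp (Equiv.addLeft s) g
      rw [this]
      exact h.sum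
    · intro j
      refine ⟨(TR_PN k b g s j _ 1).mpr (h.mx (s + j)).pn, fun r hr ψ' hψ' => ?_⟩
      exact (h.mx (s + j)).mx r hr ψ' ((TR_PN k b g s j _ r).mp hψ')
  · intro i q
    unfold Kq
    simp only [add_sub_assoc]
  · intro χ χ' S y₁ y₂
    unfold Strip
    simp only [SHF_isStrip]
  · intro G Ω Q
    constructor
    · intro h
      exact ⟨(TR_nat k b g s _ _).1 h.nat0, h.diff, h.rel⟩
    · intro h
      exact ⟨(TR_nat k b g s _ _).2 h.nat0, h.diff, h.rel⟩
  · intro G q w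
    unfold tau
    rw [TR_BB]
  · intro G q j w
    unfold bet
    rw [TR_BB]

end MQ
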