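import Pool.Agent.helper74.MQ.Spec

/-!
# Project mq: module WB (the windows of one cylinder)
-/

set_option autoImplicit false

open Complex Metric Set Filter Topology MeasureTheory MPS

noncomputable section

namespace MQ

/-- `Slit` is monotone in the depth. -/
theorem WB_mono {k : ℕ} [NeZero k] (b g : ZMod k → ℂ) (ψ : ℂ → ℂ) (d d' y : ℝ) (h : d ≤ d')
    (hs : Slit b g ψ d y) : Slit b g ψ d' y := by
  intro hn
  apply hs
  obtain ⟨e, he, χ, hχ, hE⟩ := hn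
  refine ⟨e, he, χ, ?_, hE⟩
  have hsub : HP 0 ∪ {w : ℂ | |w.im - y| < e ∧ w.re < d + e} ⊆
      HP 0 ∪ {w : ℂ | |w.im - y| < e ∧ w.re < d' + e} := by
    apply union_subset_union_right
    intro w hw
    exact ⟨hw.1, by linarith [hw.2]⟩
  exact ⟨hχ.diff.mono hsub, fun w hw => hχ.av w (hsub hw), fun w hw => hχ.eq w (hsub hw)⟩

/-- reduction modulo `2π`. -/
theorem WB_red (y : ℝ) : ∃ m : ℤ, 0 ≤ y + m * (2 * Real.pi) ∧ y + m * (2 * Real.pi) < 2 * Real.pi := by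
  have hp : (0 : ℝ) < 2 * Real.pi := by positivity
  refine ⟨-⌊y / (2 * Real.pi)⌋, ?_, ?_⟩
  · have h := Int.floor_le (y / (2 * Real.pi))
    rw [le_div_iff₀ hp] at h
    push_cast
    linarith
  · have h := Int.lt_floor_add_one (y / (2 * Real.pi))
    rw [div_lt_iff₀ hp] at h
    push_cast
    linarith

theorem WB (hcnt : CNT_stmt) (hfins : FINS_stmt) (hdpr : DPR_stmt) (hwsc : WSC_stmt)
    (hwcl : WCL_stmt) : WB_stmt := by
  classical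
  intro k _ b g ψ hF M s₀ hM hs₀ hs₁
  obtain ⟨i₀, hi₀⟩ := hcnt k b g ψ 1 hF.inj hF.sum (fun i => (hF.mx i).pn) one_pos
  obtain ⟨h1, h2, h3, h4, h5, h6, h7⟩ := hdpr k b g ψ hF i₀
  have hfin := hfins k b g ψ hF i₀ 1
  obtain ⟨F, hFs⟩ : ∃ F : Finset ℝ, ∀ y, y ∈ F ↔ (0 ≤ y ∧ y < 2 * Real.pi ∧ Slit b g (ψ i₀) 1 y) :=
    ⟨hfin.toFinset, fun y => by simp⟩
  have hcard : F.card ≤ 5 := hi₀ F (fun y hy => (hFs y).1 hy)
  obtain ⟨T, hT⟩ : ∃ T : ℝ → ℝ, ∀ y S, Dep b g (ψ i₀) y S → T y = S := by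
    refine ⟨fun y => if h : ∃ S, Dep b g (ψ i₀) y S then h.choose else 0, ?_⟩
    intro y S hS
    have hex : ∃ S, Dep b g (ψ i₀) y S := ⟨S, hS⟩
    simp only [hex, dif_pos]
    exact h2 y _ _ hex.choose_spec hS
  obtain ⟨t, ht, hd, hp⟩ := hwsc F T M s₀ hcard (fun y hy => ⟨((hFs y).1 hy).1, ((hFs y).1 hy).2.1⟩)
    hM hs₀ hs₁
  have hM0 : (0 : ℝ) < M := by linarith
  have hM1 : (1 : ℝ) ≤ M := by linarith
  have hγ : 0 < s₀ / M ^ t := by positivity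
  have hω : 0 < s₀ / M ^ (t + 1) := by positivity
  have hγ1 : s₀ / M ^ t ≤ 1 := by
    rw [div_le_one (by positivity)]
    exact hs₁.trans (one_le_pow₀ hM1)
  have hωγ : 2 * (s₀ / M ^ (t + 1)) ≤ s₀ / M ^ t := by
    have : s₀ / M ^ (t + 1) = s₀ / M ^ t / M := by
      rw [pow_succ, div_div]
    rw [this, mul_div_assoc', div_le_iff₀ hM0]
    nlinarith
  -- reduction of a critical direction
  have hredu : ∀ y S, Dep b g (ψ i₀) y S → S ≤ 1 → ∃ m : ℤ, y + m * (2 * Real.pi) ∈ F ∧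
      Dep b g (ψ i₀) (y + m * (2 * Real.pi)) S := by
    intro y S hS hS1
    obtain ⟨m, hm0, hm1⟩ := WB_red y
    have hD := h4 y S m hS
    exact ⟨m, (hFs _).2 ⟨hm0, hm1, WB_mono b g (ψ i₀) S 1 _ hS1 hD.1⟩, hD⟩
  have hgap : ∀ y S, Dep b g (ψ i₀) y S → S ≤ s₀ / M ^ (t + 1) ∨ s₀ / M ^ t < S := by
    intro y S hS
    by_cases hlt : s₀ / M ^ t < S
    · exact Or.inr hlt
    · left
      push Not at hlt
      obtain ⟨m, hm, hD⟩ := hredu y S hS (hlt.trans hγ1)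
      rcases hd _ hm with h | h
      · rwa [hT _ _ hD] at h
      · rw [hT _ _ hD] at h
        exact absurd h (not_lt.2 hlt)
  have hω1 : s₀ / M ^ (t + 1) ≤ 1 := by linarith
  obtain ⟨N, ce, hN, hceY, hceN, hceg, hcov⟩ := hwcl {y | ∃ S, Dep b g (ψ i₀) y S ∧ S ≤ s₀ / M ^ (t + 1)}
    (s₀ / M ^ (t + 1)) (s₀ / M ^ t) hω hωγ hγ1
    (by
      obtain ⟨y, hy, -⟩ := h7
      exact ⟨y, 0, hy, hω.le⟩)
    (by
      rintro y ⟨S, hS, hSd⟩ m
      exact ⟨S, h4 y S m hS, hSd⟩)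
    (by
      apply hfin.subset
      rintro y ⟨⟨S, hS, hSd⟩, hy0, hy1⟩
      exact ⟨hy0, hy1, WB_mono b g (ψ i₀) S 1 _ (hSd.trans hω1) hS.1⟩)
    (by
      rintro y ⟨S, hS, hSd⟩ y' ⟨S', hS', hSd'⟩
      obtain ⟨m, hm, -⟩ := hredu y S hS (hSd.trans hω1)
      obtain ⟨m', hm', -⟩ := hredu y' S' hS' (hSd'.trans hω1)
      have h := hp _ hm _ hm' (m - m')
      have he : y + (m : ℝ) * (2 * Real.pi) - (y' + (m' : ℝ) * (2 * Real.pi)) -
          ((m - m' : ℤ) : ℝ) * (2 * Real.pi) = y - y' := by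
        push_cast
        ring
      rwa [he] at h)
  exact ⟨i₀, t, ht, N, ce, hN, hceN, hceg, hgap, hceY, fun y S hS hSd => hcov y ⟨S, hS, hSd⟩⟩

end MQ
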